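import Mathlib

/-!
Lemma win of the board zn: the integers with a large value near them.
-/

set_option autoImplicit false

namespace Pool.Agent.H84.ZN

open Finset

open Classical in
theorem win {ι : Type*} (S : Finset ι) (w : ι → ℝ) (v : ι → ℝ → ℝ) (P C0 A : ℝ) (E K : ℕ)
    (hw : ∀ i ∈ S, 0 ≤ w i) (hv : ∀ i u, 0 ≤ v i u) (hP : 1 ≤ P) (hC : 0 ≤ C0) (hA : 0 < A)
    (hE : E + 2 ≤ 4 * K)
    (h : ∀ R : ℝ, 1 ≤ R → ∀ J : ι → Finset ℝ,
      (∀ i, ∀ a ∈ J i, ∀ b ∈ J i, a ≠ b → 1 ≤ |a - b|) → (∀ i, ∀ t ∈ J i, |t| ≤ R * P) →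
      ∑ i ∈ S, w i * ∑ t ∈ J i, v i t ^ 4 ≤ C0 * R ^ E) :
    ∑ i ∈ S, w i * (((Finset.Icc (-⌊P⌋) ⌊P⌋ : Finset ℤ).filter
      (fun k : ℤ => ∃ u : ℝ, A * (1 + |u - k|) ^ K < v i u)).card : ℝ) ≤
      2 ^ (E + 3) * C0 / A ^ 4 := by
  have hch : ∀ (i : ι) (k : ℤ), ∃ (u : ℝ) (j : ℕ), (∃ u' : ℝ, A * (1 + |u' - k|) ^ K < v i u') →
      (A * (1 + |u - k|) ^ K < v i u ∧ (2 : ℝ) ^ j ≤ 1 + |u - k| ∧ 1 + |u - k| < 2 ^ (j + 1)) := by
    intro i k
    by_cases hex : ∃ u' : ℝ, A * (1 + |u' - k|) ^ K < v i u'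
    · obtain ⟨u, hu⟩ := hex
      obtain ⟨j, h1, h2⟩ := exists_nat_pow_near
        (show (1 : ℝ) ≤ 1 + |u - k| by linarith [abs_nonneg (u - (k : ℝ))])
        (one_lt_two : (1 : ℝ) < 2)
      exact ⟨u, j, fun _ => ⟨hu, h1, h2⟩⟩
    · exact ⟨0, 0, fun hn => absurd hn hex⟩
  choose U jj hU using hch
  set B : ι → Finset ℤ := fun i => (Finset.Icc (-⌊P⌋) ⌊P⌋ : Finset ℤ).filter
      (fun k : ℤ => ∃ u : ℝ, A * (1 + |u - k|) ^ K < v i u) with hB
  have hBm : ∀ i, ∀ k ∈ B i, |(k : ℝ)| ≤ P ∧ A * (1 + |U i k - k|) ^ K < v i (U i k) ∧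
      (2 : ℝ) ^ (jj i k) ≤ 1 + |U i k - k| ∧ 1 + |U i k - k| < 2 ^ (jj i k + 1) := by
    intro i k hk
    rw [hB, Finset.mem_filter, Finset.mem_Icc] at hk
    refine ⟨?_, hU i k hk.2⟩
    have h1 : ((⌊P⌋ : ℤ) : ℝ) ≤ P := Int.floor_le P
    rw [abs_le]
    constructor
    · have : ((-⌊P⌋ : ℤ) : ℝ) ≤ (k : ℝ) := by exact_mod_cast hk.1.1
      push_cast at this
      linarith
    · have : (k : ℝ) ≤ ((⌊P⌋ : ℤ) : ℝ) := by exact_mod_cast hk.1.2
      linarith
  change ∑ i ∈ S, w i * ((B i).card : ℝ) ≤ _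
  clear_value B
  -- one class
  have hone : ∀ (j : ℕ) (a : ℕ), ∑ i ∈ S, w i * (((B i).filter
      (fun k => jj i k = j ∧ k % (2 ^ (j + 2) : ℤ) = a)).card : ℝ) ≤
      C0 * (2 ^ (j + 1)) ^ E / (A * (2 ^ j) ^ K) ^ 4 := by
    intro j a
    set D : ι → Finset ℤ := fun i => (B i).filter
      (fun k => jj i k = j ∧ k % (2 ^ (j + 2) : ℤ) = a) with hD
    have hsp : ∀ i, ∀ k ∈ D i, ∀ l ∈ D i, k ≠ l → 1 ≤ |U i k - U i l| := by
      intro i k hk l hl hkl
      rw [hD, Finset.mem_filter] at hk hl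
      obtain ⟨-, -, -, h4⟩ := hBm i k hk.1
      obtain ⟨-, -, -, h8⟩ := hBm i l hl.1
      rw [hk.2.1] at h4
      rw [hl.2.1] at h8
      have h9 : (2 ^ (j + 2) : ℤ) ∣ k - l := Int.ModEq.dvd (by
        show l % _ = k % _
        rw [hk.2.2, hl.2.2])
      have h10 : (2 ^ (j + 2) : ℤ) ≤ |k - l| := Int.le_of_dvd
        (abs_pos.2 (sub_ne_zero.2 hkl)) ((dvd_abs _ _).2 h9)
      have h11 : (2 : ℝ) ^ (j + 2) ≤ |(k : ℝ) - l| := by exact_mod_cast h10
      have h12 : |(k : ℝ) - l| ≤ |U i k - k| + |U i k - U i l| + |U i l - l| := by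
        have e : (k : ℝ) - l = -(U i k - k) + (U i k - U i l) + (U i l - l) := by ring
        calc |(k : ℝ) - l| = |-(U i k - k) + (U i k - U i l) + (U i l - l)| := by rw [← e]
          _ ≤ |-(U i k - k) + (U i k - U i l)| + |U i l - l| := abs_add_le _ _
          _ ≤ |-(U i k - k)| + |U i k - U i l| + |U i l - l| := by
              linarith [abs_add_le (-(U i k - k)) (U i k - U i l)]
          _ = _ := by rw [abs_neg]
      have h13 : (2 : ℝ) ^ (j + 2) = 2 * 2 ^ (j + 1) := by ring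
      linarith
    have hinj : ∀ i, Set.InjOn (U i) (D i : Set ℤ) := by
      intro i k hk l hl hkl
      by_contra hne
      have := hsp i k hk l hl hne
      rw [hkl, sub_self, abs_zero] at this
      linarith
    have hR : (1 : ℝ) ≤ 2 ^ (j + 1) := one_le_pow₀ (by norm_num)
    have h1 := h (2 ^ (j + 1)) hR (fun i => (D i).image (U i)) (by
      intro i x hx y hy hxy
      obtain ⟨k, hk, rfl⟩ := Finset.mem_image.1 hx
      obtain ⟨l, hl, rfl⟩ := Finset.mem_image.1 hy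
      exact hsp i k hk l hl (fun e => hxy (by rw [e]))) (by
      intro i x hx
      obtain ⟨k, hk, rfl⟩ := Finset.mem_image.1 hx
      rw [hD, Finset.mem_filter] at hk
      obtain ⟨h1, -, -, h4⟩ := hBm i k hk.1
      rw [hk.2.1] at h4
      have h5 : |U i k| ≤ |U i k - k| + |(k : ℝ)| := by
        have := abs_add_le (U i k - k) (k : ℝ)
        rwa [sub_add_cancel] at this
      nlinarith)
    have hq : 0 < A * ((2 : ℝ) ^ j) ^ K := by positivity
    rw [le_div_iff₀ (by positivity), Finset.sum_mul]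
    refine le_trans (Finset.sum_le_sum ?_) h1
    intro i hi
    rw [mul_assoc]
    apply mul_le_mul_of_nonneg_left _ (hw i hi)
    rw [Finset.sum_image (hinj i), ← nsmul_eq_mul]
    apply Finset.card_nsmul_le_sum
    intro k hk
    rw [Finset.mem_filter] at hk
    obtain ⟨-, h2, h3, -⟩ := hBm i k hk.1
    rw [hk.2.1] at h3
    apply pow_le_pow_left₀ hq.le
    refine le_trans ?_ h2.le
    apply mul_le_mul_of_nonneg_left _ hA.le
    exact pow_le_pow_left₀ (by positivity) h3 K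
  -- the sum over the classes
  obtain ⟨J0, hJ0⟩ : ∃ J0 : ℕ, ∀ i ∈ S, ∀ k ∈ B i, jj i k < J0 := by
    refine ⟨(S.sup fun i => (B i).sup fun k => jj i k) + 1, ?_⟩
    intro i hi k hk
    have h1 : jj i k ≤ (B i).sup fun k => jj i k := Finset.le_sup (f := fun k => jj i k) hk
    have h2 := Finset.le_sup (f := fun i => (B i).sup fun k => jj i k) hi
    exact Nat.lt_succ_of_le (h1.trans h2)
  have hcard : ∀ i ∈ S, ((B i).card : ℝ) = ∑ j ∈ range J0, ∑ a ∈ range (2 ^ (j + 2)),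
      (((B i).filter (fun k => jj i k = j ∧ k % (2 ^ (j + 2) : ℤ) = a)).card : ℝ) := by
    intro i hi
    rw [Finset.card_eq_sum_card_fiberwise (f := fun k => jj i k) (t := range J0)
      (fun k hk => Finset.mem_coe.2 (Finset.mem_range.2 (hJ0 i hi k hk)))]
    push_cast
    apply Finset.sum_congr rfl
    intro j hj
    rw [Finset.card_eq_sum_card_fiberwise (s := (B i).filter fun k => jj i k = j)
      (f := fun k : ℤ => (k % (2 ^ (j + 2) : ℤ)).toNat) (t := range (2 ^ (j + 2)))]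
    · push_cast
      apply Finset.sum_congr rfl
      intro a ha
      congr 2
      ext k
      rw [Finset.mem_filter, Finset.mem_filter, Finset.mem_filter]
      have h0 : 0 ≤ k % (2 ^ (j + 2) : ℤ) := Int.emod_nonneg _ (by positivity)
      constructor
      · rintro ⟨⟨h1, h2⟩, h3⟩
        refine ⟨h1, h2, ?_⟩
        rw [← h3, Int.toNat_of_nonneg h0]
      · rintro ⟨h1, h2, h3⟩
        refine ⟨⟨h1, h2⟩, ?_⟩
        show (k % (2 ^ (j + 2) : ℤ)).toNat = a
        rw [h3, Int.toNat_natCast]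
    · intro k _
      have h0 : 0 ≤ k % (2 ^ (j + 2) : ℤ) := Int.emod_nonneg _ (by positivity)
      have h1 : k % (2 ^ (j + 2) : ℤ) < 2 ^ (j + 2) := Int.emod_lt_of_pos _ (by positivity)
      rw [Finset.mem_coe, Finset.mem_range]
      show (k % (2 ^ (j + 2) : ℤ)).toNat < _
      have h2 : (((k % (2 ^ (j + 2) : ℤ)).toNat : ℕ) : ℤ) < ((2 ^ (j + 2) : ℕ) : ℤ) := by
        rw [Int.toNat_of_nonneg h0]
        push_cast
        exact h1
      exact_mod_cast h2
  have hsum : ∑ i ∈ S, w i * ((B i).card : ℝ) = ∑ j ∈ range J0, ∑ a ∈ range (2 ^ (j + 2)),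
      ∑ i ∈ S, w i * (((B i).filter
        (fun k => jj i k = j ∧ k % (2 ^ (j + 2) : ℤ) = a)).card : ℝ) := by
    calc ∑ i ∈ S, w i * ((B i).card : ℝ)
        = ∑ i ∈ S, ∑ j ∈ range J0, ∑ a ∈ range (2 ^ (j + 2)), w i * (((B i).filter
            (fun k => jj i k = j ∧ k % (2 ^ (j + 2) : ℤ) = a)).card : ℝ) := by
          apply Finset.sum_congr rfl
          intro i hi
          rw [hcard i hi, Finset.mul_sum]
          apply Finset.sum_congr rfl
          intro j _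
          rw [Finset.mul_sum]
      _ = ∑ j ∈ range J0, ∑ i ∈ S, ∑ a ∈ range (2 ^ (j + 2)), w i * (((B i).filter
            (fun k => jj i k = j ∧ k % (2 ^ (j + 2) : ℤ) = a)).card : ℝ) := Finset.sum_comm
      _ = _ := by
          apply Finset.sum_congr rfl
          intro j _
          exact Finset.sum_comm
  rw [hsum]
  have hj : ∀ j ∈ range J0, ∑ a ∈ range (2 ^ (j + 2)), ∑ i ∈ S, w i * (((B i).filter
        (fun k => jj i k = j ∧ k % (2 ^ (j + 2) : ℤ) = a)).card : ℝ) ≤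
      (2 ^ (E + 2) * C0 / A ^ 4) * (1 / 2) ^ j := by
    intro j _
    calc _ ≤ ∑ _a ∈ range (2 ^ (j + 2)), C0 * ((2 : ℝ) ^ (j + 1)) ^ E / (A * (2 ^ j) ^ K) ^ 4 :=
          Finset.sum_le_sum fun a _ => hone j a
      _ = (2 : ℝ) ^ (j + 2) * (C0 * (2 ^ (j + 1)) ^ E / (A * (2 ^ j) ^ K) ^ 4) := by
          rw [Finset.sum_const, Finset.card_range, nsmul_eq_mul]
          push_cast
          rfl
      _ = (C0 / A ^ 4) * ((2 : ℝ) ^ (j + 2) * (2 ^ (j + 1)) ^ E / ((2 ^ j) ^ K) ^ 4) := by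
          rw [mul_pow A]
          field_simp
      _ ≤ (C0 / A ^ 4) * (2 ^ (E + 2) * (1 / 2) ^ j) := by
          apply mul_le_mul_of_nonneg_left _ (by positivity)
          rw [div_le_iff₀ (by positivity), one_div, inv_pow, ← pow_mul, ← pow_mul, ← pow_mul,
            ← pow_add, mul_assoc, inv_mul_eq_div, mul_div_assoc', le_div_iff₀ (by positivity),
            ← pow_add, ← pow_add]
          apply pow_le_pow_right₀ (by norm_num)
          have : j * (E + 2) ≤ j * (4 * K) := Nat.mul_le_mul_left j hE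
          nlinarith
      _ = _ := by ring
  have hgeo : ∑ j ∈ range J0, ((1 : ℝ) / 2) ^ j ≤ 2 := by
    have h1 : Summable fun j : ℕ => ((1 : ℝ) / 2) ^ j := summable_geometric_two
    have h2 := h1.sum_le_tsum (range J0) (fun j _ => by positivity)
    rwa [tsum_geometric_two] at h2
  calc _ ≤ ∑ j ∈ range J0, (2 ^ (E + 2) * C0 / A ^ 4) * (1 / 2) ^ j := Finset.sum_le_sum hj
    _ = (2 ^ (E + 2) * C0 / A ^ 4) * ∑ j ∈ range J0, ((1 : ℝ) / 2) ^ j := by rw [Finset.mul_sum]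
    _ ≤ (2 ^ (E + 2) * C0 / A ^ 4) * 2 := mul_le_mul_of_nonneg_left hgeo (by positivity)
    _ = 2 ^ (E + 3) * C0 / A ^ 4 := by ring

end Pool.Agent.H84.ZN
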