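import Pool.Agent.H27.L1.H84.GB.ZPB
import Pool.Agent.H34.ZN.Targets2

/-!
Row ZPS of the board zn: the zeta integral on vertical strips.
-/

set_option autoImplicit false

namespace Pool.Agent.H84.ZN

open MeasureTheory Pool.Agent.H27.L1.H34.GM Pool.Agent.H27.L1.H34.GU Pool.Agent.H27.L1.H34.GA
  Pool.Agent.H27.L1.H84.GA Pool.Agent.H27.L1.H23.GB Pool.Agent.H34.ZN
open Pool.Agent.H27.L1.H34.GZ hiding eu eu2 cf

/-- the zeta integral is bounded on vertical strips, uniformly in `δ` -/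
theorem pf_ZPS : T_ZPS := by
  intro m χ σ1 hm0 hχ hσ1
  have hsm := BS.it_sm (BS.B1_sm (m := m) hχ) m
  have hcs := BS.B1_cs (m := m) hχ m
  obtain ⟨C1, hC1⟩ := hsm.continuous.bounded_above_of_compact_support hcs
  have hC10 : 0 ≤ C1 := (norm_nonneg _).trans (hC1 0)
  obtain ⟨C2, hC2, hK⟩ := BD.KK_bd (m := m)
  obtain ⟨C3, hC3⟩ := (BD.KK_comp.image (FD.cont_det (m := m)).abs).bddAbove
  have hC3' : ∀ z ∈ BD.KK m, |(mt z).det| ≤ C3 := fun z hz => hC3 ⟨z, hz, rfl⟩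
  set C4 : ℝ := max C3 1 with hC4
  have hC4' : 0 < C4 := lt_of_lt_of_le one_pos (le_max_right _ _)
  have hm1 : (1 : ℝ) ≤ m := by exact_mod_cast hm0
  set v : ENNReal := (volume : Measure (V m)) (Metric.ball 0 1) with hv
  have hvt : v ≠ ⊤ := measure_ball_lt_top.ne
  refine ⟨(C1 * C4 ^ (σ1 + ((m : ℝ) - 1) / 2)) * (C2 ^ m * v.toReal) + 1, by positivity, ?_⟩
  intro δ hδ hδ2 f hf s hs1 hs2
  have hfun := BS.it_scale (BS.B1_sm (m := m) hχ) δ⁻¹ m
  rw [← BS.bi_fun χ hδ] at hfun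
  have hnp : ‖(((δ⁻¹ : ℝ) : ℂ) ^ m) ^ m‖ = δ⁻¹ ^ (m * m) := by
    rw [norm_pow, norm_pow, Complex.norm_real, Real.norm_of_nonneg (by positivity), pow_mul]
  have hb : ∀ z : Mat m, ‖(dD^[m] (bi m χ δ)) z‖ ≤ δ⁻¹ ^ (m * m) * C1 := by
    intro z
    rw [hfun]
    show ‖(((δ⁻¹ : ℝ) : ℂ) ^ m) ^ m * (dD^[m] (BS.B1 m χ)) (δ⁻¹ • (z - 1))‖ ≤ _
    rw [norm_mul, hnp]
    exact mul_le_mul_of_nonneg_left (hC1 _) (by positivity)
  set S : Set (V m) := BD.KK m ∩ Metric.closedBall (BD.oneV m) δ with hS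
  have hScl : IsClosed S := BD.KK_comp.isClosed.inter Metric.isClosed_closedBall
  have hsupp : ∀ z : V m, (dD^[m] (bi m χ δ)) (mt z) ≠ 0 → z ∈ S := by
    apply it_supp (Φ := bi m χ δ) m S hScl
    intro z hz
    refine ⟨BD.mem_KK hχ hδ hδ2 hz, ?_⟩
    rw [mem_closedBall_iff_norm]
    exact BD.sz_sub_le hχ hδ hz
  have hmS : hm m S ≤ ENNReal.ofReal (C2 ^ m) * (ENNReal.ofReal (δ ^ (m * m)) * v) := by
    have h1 : hm m S = ∫⁻ z in S, ENNReal.ofReal ((|(mt z).det| ^ m)⁻¹) := by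
      unfold hm
      rw [withDensity_apply _ hScl.measurableSet]
    have h2 : (volume : Measure (V m)) S ≤ ENNReal.ofReal (δ ^ (m * m)) * v := by
      refine (measure_mono Set.inter_subset_right).trans ?_
      rw [Measure.addHaar_closedBall _ _ hδ.le]
      have h3 : Module.finrank ℝ (V m) = m * m := by
        rw [Module.finrank_pi_fintype]
        simp
      rw [h3]
    rw [h1]
    calc ∫⁻ z in S, ENNReal.ofReal ((|(mt z).det| ^ m)⁻¹)
        ≤ ∫⁻ _z in S, ENNReal.ofReal (C2 ^ m) := by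
          apply setLIntegral_mono' hScl.measurableSet
          intro z hz
          apply ENNReal.ofReal_le_ofReal
          rw [← inv_pow]
          have h4 := (hK z hz.1).1
          apply pow_le_pow_left₀ (by positivity)
          rw [inv_le_comm₀ (abs_pos.2 (BD.KK_pos hz.1).ne') (by linarith)]
          exact h4
      _ = ENNReal.ofReal (C2 ^ m) * (volume : Measure (V m)) S := by
          rw [setLIntegral_const]
      _ ≤ _ := mul_le_mul_right h2 _
  have hpt : ∀ z : V m, ‖(dD^[m] (bi m χ δ)) (mt z) *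
      ((|(mt z).det| : ℝ) : ℂ) ^ (s + ((m : ℂ) - 1) / 2) * f (mt z)‖ ≤
      S.indicator (fun _ => δ⁻¹ ^ (m * m) * (C1 * C4 ^ (σ1 + ((m : ℝ) - 1) / 2))) z := by
    intro z
    by_cases hz : z ∈ S
    · rw [Set.indicator_of_mem hz, norm_mul, norm_mul]
      have hd : 0 < |(mt z).det| := abs_pos.2 (BD.KK_pos hz.1).ne'
      have h1 : ‖((|(mt z).det| : ℝ) : ℂ) ^ (s +
          ((m : ℂ) - 1) / 2)‖ ≤ C4 ^ (σ1 + ((m : ℝ) - 1) / 2) := by
        rw [Complex.norm_cpow_eq_rpow_re_of_pos hd]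
        have h2 : (s + ((m : ℂ) - 1) / 2).re = s.re + ((m : ℝ) - 1) / 2 := by
          have : ((m : ℂ) - 1) / 2 = ((((m : ℝ) - 1) / 2 : ℝ) : ℂ) := by
            push_cast
            ring
          rw [this, Complex.add_re, Complex.ofReal_re]
        rw [h2]
        have h3 : 0 ≤ s.re + ((m : ℝ) - 1) / 2 := by linarith
        calc |(mt z).det| ^ (s.re + ((m : ℝ) - 1) / 2)
            ≤ C4 ^ (s.re + ((m : ℝ) - 1) / 2) :=
              Real.rpow_le_rpow hd.le ((hC3' z hz.1).trans (le_max_left _ _)) h3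
          _ ≤ _ := Real.rpow_le_rpow_of_exponent_le (le_max_right _ _) (by linarith)
      have h3 : ‖f (mt z)‖ ≤ 1 := hf.bd _ (BD.KK_pos hz.1).ne'
      calc ‖(dD^[m] (bi m χ δ)) (mt z)‖ * ‖((|(mt z).det| : ℝ) : ℂ) ^
            (s + ((m : ℂ) - 1) / 2)‖ * ‖f (mt z)‖
          ≤ (δ⁻¹ ^ (m * m) * C1) * C4 ^ (σ1 + ((m : ℝ) - 1) / 2) * 1 := by
            apply mul_le_mul _ h3 (norm_nonneg _) (by positivity)
            exact mul_le_mul (hb _) h1 (norm_nonneg _) (by positivity)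
        _ = _ := by ring
    · rw [Set.indicator_of_notMem hz]
      have h1 : (dD^[m] (bi m χ δ)) (mt z) = 0 := by
        by_contra hn
        exact hz (hsupp z hn)
      rw [h1, zero_mul, zero_mul, norm_zero]
  have hint : (∫⁻ z : V m, ‖(dD^[m] (bi m χ δ)) (mt z) *
      ((|(mt z).det| : ℝ) : ℂ) ^ (s + ((m : ℂ) - 1) / 2) *
        f (mt z)‖ₑ ∂(hm m)) ≤
      ENNReal.ofReal ((C1 * C4 ^ (σ1 + ((m : ℝ) - 1) / 2)) * (C2 ^ m * v.toReal)) := by
    calc (∫⁻ z : V m, ‖(dD^[m] (bi m χ δ)) (mt z) *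
          ((|(mt z).det| : ℝ) : ℂ) ^ (s + ((m : ℂ) - 1) / 2) *
            f (mt z)‖ₑ ∂(hm m))
        ≤ ∫⁻ z : V m, S.indicator (fun _ => ENNReal.ofReal
            (δ⁻¹ ^ (m * m) * (C1 * C4 ^ (σ1 + ((m : ℝ) - 1) / 2)))) z ∂(hm m) := by
          apply lintegral_mono
          intro z
          have h1 := hpt z
          beta_reduce
          rw [← ofReal_norm]
          by_cases hz : z ∈ S
          · rw [Set.indicator_of_mem hz] at h1
            rw [Set.indicator_of_mem hz]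
            exact ENNReal.ofReal_le_ofReal h1
          · rw [Set.indicator_of_notMem hz] at h1
            rw [Set.indicator_of_notMem hz]
            rw [ENNReal.ofReal_of_nonpos h1]
      _ = ENNReal.ofReal (δ⁻¹ ^ (m * m) * (C1 * C4 ^ (σ1 + ((m : ℝ) - 1) / 2))) * hm m S := by
          rw [lintegral_indicator_const hScl.measurableSet]
      _ ≤ ENNReal.ofReal (δ⁻¹ ^ (m * m) * (C1 * C4 ^ (σ1 + ((m : ℝ) - 1) / 2))) *
          (ENNReal.ofReal (C2 ^ m) * (ENNReal.ofReal (δ ^ (m * m)) * v)) :=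
          mul_le_mul_right hmS _
      _ = ENNReal.ofReal ((C1 * C4 ^ (σ1 + ((m : ℝ) - 1) / 2)) * (C2 ^ m * v.toReal)) := by
          rw [← ENNReal.ofReal_toReal hvt, ← ENNReal.ofReal_mul (by positivity),
            ← ENNReal.ofReal_mul (by positivity), ← ENNReal.ofReal_mul (by positivity)]
          congr 1
          rw [ENNReal.toReal_ofReal ENNReal.toReal_nonneg]
          have : δ⁻¹ ^ (m * m) * δ ^ (m * m) = 1 := by
            rw [← mul_pow, inv_mul_cancel₀ hδ.ne', one_pow]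
          calc _ = (δ⁻¹ ^ (m * m) * δ ^ (m * m)) *
                ((C1 * C4 ^ (σ1 + ((m : ℝ) - 1) / 2)) * (C2 ^ m * v.toReal)) := by ring
            _ = _ := by rw [this, one_mul]
  have hfin : ‖ZA (dD^[m] (bi m χ δ)) f s‖ₑ ≤
      ENNReal.ofReal ((C1 * C4 ^ (σ1 + ((m : ℝ) - 1) / 2)) * (C2 ^ m * v.toReal)) := by
    unfold ZA
    exact (enorm_integral_le_lintegral_enorm _).trans hint
  have h9 : 0 ≤ (C1 * C4 ^ (σ1 + ((m : ℝ) - 1) / 2)) * (C2 ^ m * v.toReal) := by positivity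
  rw [← ofReal_norm, ENNReal.ofReal_le_ofReal_iff h9] at hfin
  linarith

end Pool.Agent.H84.ZN
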